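import Pool.Agent.Helper41.LD2.Defs
import Pool.Agent.Helper65.LD.Dio

/-!
# Project LD2, block DIO: the arithmetic condition passes to all but a few children
-/

set_option autoImplicit false

namespace Pool.Agent.Helper27.LD2

open Set
open Pool.Agent.Helper41.LD2
open Pool.Agent.Helper65.LD (DioW)

variable {A₀ x₁ x₂ : ℝ}

theorem vp_pos (hA : 0 < A₀) {a : ℝ} (ha : 0 < a) (n : ℕ) : 0 < vp A₀ n a := by
  unfold vp
  positivity

/-- the length of a window -/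
theorem len_le (hA : 0 < A₀) (h1 : 1 < x₁) {a ℓ : ℝ} (ha : x₁ ≤ a) {n : ℕ} (hw : PWin A₀ n a ℓ) :
    0 < ℓ ∧ A₀ * x₁ ^ n * ℓ ≤ 2 := by
  obtain ⟨hw1, hw2⟩ := hw
  have hx : 0 < x₁ := by linarith
  have ha0 : 0 < a := by linarith
  have hv := vp_pos hA ha0 n
  have hℓ : 0 < ℓ := by
    by_contra h
    have : vp A₀ n a * ℓ ≤ 0 := mul_nonpos_of_nonneg_of_nonpos hv.le (not_lt.1 h)
    linarith
  refine ⟨hℓ, ?_⟩
  have h2 : A₀ * x₁ ^ n ≤ vp A₀ n a := by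
    unfold vp
    have h3 : x₁ ^ n ≤ a ^ n := pow_le_pow_left₀ hx.le ha n
    have h4 : A₀ ≤ A₀ * (n + 1) := by nlinarith [(Nat.cast_nonneg n : (0 : ℝ) ≤ n)]
    exact mul_le_mul h4 h3 (by positivity) (by positivity)
  exact (mul_le_mul_of_nonneg_right h2 hℓ.le).trans hw2

/-- a lower bound for the length of a window of time `m ≤ 2 n` -/
theorem le_len (hA : 0 < A₀) {a η : ℝ} (ha : 1 ≤ a) (ha2 : a ≤ x₂) {n m : ℕ} (hm : m ≤ 2 * n) (hw : PWin A₀ m a η)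
    (hη : 0 < η) : 1 ≤ A₀ * (2 * n + 1) * x₂ ^ (2 * n) * η := by
  obtain ⟨hw1, hw2⟩ := hw
  refine hw1.trans (mul_le_mul_of_nonneg_right ?_ hη.le)
  unfold vp
  have h1 : (m : ℝ) ≤ 2 * n := by exact_mod_cast hm
  have h2 : a ^ m ≤ x₂ ^ (2 * n) :=
    (pow_le_pow_left₀ (by linarith) ha2 m).trans (pow_le_pow_right₀ (ha.trans ha2) hm)
  have h3 : A₀ * ((m : ℝ) + 1) ≤ A₀ * (2 * n + 1) := mul_le_mul_of_nonneg_left (by linarith) hA.le
  exact mul_le_mul h3 h2 (by positivity) (by positivity)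

/-- the linear factor is absorbed -/
theorem lin_le_exp (hA : 0 < A₀) {n : ℕ} (h1 : 1 ≤ n) (h6 : 6 * A₀ ≤ n) : A₀ * (2 * n + 1) ≤ Real.exp n := by
  have hn : (1 : ℝ) ≤ n := by exact_mod_cast h1
  have h := Real.quadratic_le_exp_of_nonneg (by linarith : (0 : ℝ) ≤ n)
  nlinarith

/-- the logarithm of the degree and the denominator -/
theorem le_R {ρ : ℝ} (hρ : 0 < ρ) {d q : ℕ} (hd : 1 ≤ d) (hq : 1 ≤ q) (h : (d : ℝ) + Real.log q ≤ ρ) :
    d ≤ ⌈2 * ρ⌉₊ ∧ q ≤ 2 ^ ⌈2 * ρ⌉₊ := by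
  have hq1 : (1 : ℝ) ≤ q := by exact_mod_cast hq
  have hd1 : (1 : ℝ) ≤ d := by exact_mod_cast hd
  have hlog : 0 ≤ Real.log q := Real.log_nonneg hq1
  have hR : 2 * ρ ≤ (⌈2 * ρ⌉₊ : ℝ) := Nat.le_ceil _
  constructor
  · have : (d : ℝ) ≤ (⌈2 * ρ⌉₊ : ℝ) := by linarith
    exact_mod_cast this
  · have h2 : (1 : ℝ) / 2 < Real.log 2 := by
      have := Real.log_two_gt_d9
      linarith
    have h3 : Real.log q ≤ (⌈2 * ρ⌉₊ : ℝ) * Real.log 2 := by nlinarith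
    have h4 : (q : ℝ) ≤ 2 ^ ⌈2 * ρ⌉₊ := by
      rw [← Real.exp_log (by linarith : (0 : ℝ) < q), ← Real.exp_log (by norm_num : (0 : ℝ) < 2), ← Real.exp_nat_mul,
        Real.exp_le_exp]
      rw [Real.exp_log (by norm_num : (0 : ℝ) < 2)]
      exact h3
    exact_mod_cast h4

/-- at most `8` children violate the arithmetic condition -/
theorem dio_step (h1 : 1 < x₁) (h12 : x₁ ≤ x₂) (hA : 0 < A₀) {c₀ : ℝ} (hc₀ : 0 < c₀) : ∃ C₀ : ℝ, ∀ C ≥ C₀, ∃ N₁ : ℕ,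
    ∀ n m : ℕ, N₁ ≤ n → n ≤ m → m ≤ 2 * n → ∀ a ℓ : ℝ, x₁ ≤ a → a + ℓ ≤ x₂ → PWin A₀ n a ℓ → Dio C c₀ n a ℓ → ∀ B : ℕ, 1 ≤ B →
      (∀ b < B, PWin A₀ m (a + b * (ℓ / B)) (ℓ / B)) →
      ∃ S : Finset ℕ, S.card ≤ 8 ∧ ∀ b < B, b ∉ S → Dio C c₀ m (a + b * (ℓ / B)) (ℓ / B) := by
  have hx1 : 0 < x₁ := by linarith
  have hx2 : 1 < x₂ := by linarith
  have hx20 : 0 < x₂ := by linarith
  have hl1 : 0 < Real.log x₁ := Real.log_pos h1
  have hl2 : 0 < Real.log x₂ := Real.log_pos hx2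
  set k₁ : ℝ := Real.log x₁ / (2 * c₀) with hk₁
  have hk₁0 : 0 < k₁ := by positivity
  set k₂ : ℝ := Real.log (64 * x₂) with hk₂
  have hk₂0 : 0 < k₂ := Real.log_pos (by linarith)
  set e₀ : ℝ := |Real.log 2 - Real.log A₀| with he₀
  have he₀0 : 0 ≤ e₀ := abs_nonneg _
  set ρ₀ : ℝ := max 1 ((9 * k₂ + e₀ + 1) / k₁) with hρ₀
  refine ⟨(2 * Real.log x₂ + 1) / c₀, fun C hC => ⟨⌈6 * A₀⌉₊ + 1 + ⌈ρ₀ ^ 3 / (2 * c₀)⌉₊, ?_⟩⟩
  intro n m hn hnm hm a ℓ ha haℓ hw hDio B hB hch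
  have hC0 : 0 < C := lt_of_lt_of_le (by positivity) hC
  have hn1 : 1 ≤ n := by omega
  have hn1r : (1 : ℝ) ≤ n := by exact_mod_cast hn1
  have hnA : 6 * A₀ ≤ n := by
    have h2 : ⌈6 * A₀⌉₊ ≤ n := by omega
    exact (Nat.le_ceil _).trans (by exact_mod_cast h2)
  have hnρ : ρ₀ ^ 3 ≤ 2 * c₀ * n := by
    have h2 : ⌈ρ₀ ^ 3 / (2 * c₀)⌉₊ ≤ n := by omega
    have h3 : ρ₀ ^ 3 / (2 * c₀) ≤ n := (Nat.le_ceil _).trans (by exact_mod_cast h2)
    rw [div_le_iff₀ (by positivity)] at h3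
    linarith
  -- the scale
  set ρ : ℝ := (2 * c₀ * n) ^ ((3 : ℝ)⁻¹) with hρ
  have hbase : 0 ≤ 2 * c₀ * n := by positivity
  have hρ3 : ρ ^ 3 = 2 * c₀ * n := by
    have := Real.rpow_inv_natCast_pow hbase (n := 3) (by norm_num)
    rw [hρ]
    exact_mod_cast this
  have hρ0 : 0 ≤ ρ := Real.rpow_nonneg hbase _
  have hρ₀1 : 1 ≤ ρ₀ := le_max_left _ _
  have hρρ : ρ₀ ≤ ρ := by
    refine le_of_pow_le_pow_left₀ (n := 3) (by norm_num) hρ0 ?_
    rw [hρ3]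
    exact hnρ
  have hρ1 : 1 ≤ ρ := hρ₀1.trans hρρ
  have hk : 9 * k₂ + e₀ + 1 ≤ k₁ * ρ := by
    have h2 : (9 * k₂ + e₀ + 1) / k₁ ≤ ρ := (le_max_right _ _).trans hρρ
    rw [div_le_iff₀ hk₁0] at h2
    linarith
  -- lengths
  obtain ⟨hℓ, hℓ2⟩ := len_le hA h1 ha hw
  have hB0 : (0 : ℝ) < B := by exact_mod_cast hB
  set η : ℝ := ℓ / B with hη
  have hη0 : 0 < η := by positivity
  set R : ℕ := ⌈2 * ρ⌉₊ with hR
  have hR3 : (R : ℝ) ≤ 3 * ρ := by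
    have h2 : (R : ℝ) < 2 * ρ + 1 := Nat.ceil_lt_add_one (by positivity)
    linarith
  -- the smallness condition
  have hs : (64 * x₂) ^ (R ^ 2) * ℓ < 1 := by
    have e1 : (64 * x₂) ^ (R ^ 2) = Real.exp ((R ^ 2 : ℕ) * k₂) := by
      rw [Real.exp_nat_mul, hk₂, Real.exp_log (by positivity)]
    have e2 : x₁ ^ n = Real.exp (n * Real.log x₁) := by
      rw [Real.exp_nat_mul, Real.exp_log hx1]
    have e3 : ((R ^ 2 : ℕ) : ℝ) * k₂ ≤ 9 * k₂ * ρ ^ 2 := by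
      have h2 : ((R ^ 2 : ℕ) : ℝ) ≤ (3 * ρ) ^ 2 := by
        push_cast
        exact pow_le_pow_left₀ (Nat.cast_nonneg _) hR3 2
      nlinarith
    have e4 : (n : ℝ) * Real.log x₁ = k₁ * ρ ^ 3 := by
      rw [hρ3, hk₁]
      field_simp
    have hρ2 : 1 ≤ ρ ^ 2 := one_le_pow₀ hρ1
    have e5 : 9 * k₂ * ρ ^ 2 + e₀ < k₁ * ρ ^ 3 := by
      have h2 : (9 * k₂ + e₀ + 1) * ρ ^ 2 ≤ k₁ * ρ * ρ ^ 2 := mul_le_mul_of_nonneg_right hk (by positivity)
      have h3 : k₁ * ρ * ρ ^ 2 = k₁ * ρ ^ 3 := by ring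
      have h4 : e₀ ≤ e₀ * ρ ^ 2 := le_mul_of_one_le_right he₀0 hρ2
      nlinarith
    have e6 : Real.exp ((R ^ 2 : ℕ) * k₂) * 2 < A₀ * x₁ ^ n := by
      have h2 : (2 : ℝ) = Real.exp (Real.log 2) := (Real.exp_log (by norm_num)).symm
      have h3 : A₀ = Real.exp (Real.log A₀) := (Real.exp_log hA).symm
      rw [e2]
      calc Real.exp ((R ^ 2 : ℕ) * k₂) * 2 = Real.exp ((R ^ 2 : ℕ) * k₂ + Real.log 2) := by
            rw [Real.exp_add, ← h2]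
        _ < Real.exp (Real.log A₀ + n * Real.log x₁) := by
            rw [Real.exp_lt_exp, e4]
            have h4 : Real.log 2 - Real.log A₀ ≤ e₀ := le_abs_self _
            linarith
        _ = A₀ * Real.exp (n * Real.log x₁) := by rw [Real.exp_add, ← h3]
    rw [e1]
    have h2 : Real.exp ((R ^ 2 : ℕ) * k₂) * 2 * ℓ < A₀ * x₁ ^ n * ℓ := mul_lt_mul_of_pos_right e6 hℓ
    linarith
  -- the error is smaller than the length of a child
  have hexp : Real.exp (-(C * (c₀ * n))) ≤ η := by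
    have h2 : PWin A₀ m a η := by
      have := hch 0 (by omega)
      simpa using this
    have h3 := le_len hA (h1.le.trans ha) (by linarith : a ≤ x₂) hm h2 hη0
    have h4 := lin_le_exp hA hn1 hnA
    have e2 : x₂ ^ (2 * n) = Real.exp ((2 * n : ℕ) * Real.log x₂) := by
      rw [Real.exp_nat_mul, Real.exp_log hx20]
    have h5 : A₀ * (2 * n + 1) * x₂ ^ (2 * n) ≤ Real.exp (C * (c₀ * n)) := by
      calc A₀ * (2 * n + 1) * x₂ ^ (2 * n) ≤ Real.exp n * Real.exp ((2 * n : ℕ) * Real.log x₂) := by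
            rw [e2]
            exact mul_le_mul_of_nonneg_right h4 (Real.exp_pos _).le
        _ = Real.exp (n * (2 * Real.log x₂ + 1)) := by
            rw [← Real.exp_add]
            congr 1
            push_cast
            ring
        _ ≤ Real.exp (C * (c₀ * n)) := by
            rw [Real.exp_le_exp]
            have h6 : 2 * Real.log x₂ + 1 ≤ C * c₀ := by
              rw [ge_iff_le, div_le_iff₀ hc₀] at hC
              exact hC
            nlinarith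
    have h6 : 1 ≤ Real.exp (C * (c₀ * n)) * η := h3.trans (mul_le_mul_of_nonneg_right h5 hη0.le)
    rw [Real.exp_neg, inv_le_iff_one_le_mul₀ (Real.exp_pos _)]
    linarith [mul_comm (Real.exp (C * (c₀ * n))) η]
  -- the children
  classical
  refine ⟨(Finset.range B).filter fun b : ℕ => ¬ DioW R (ℓ / B) (a + b * (ℓ / B)) (ℓ / B), ?_, ?_⟩
  · exact (Pool.Agent.Helper65.LD.dio_step R (h1.le.trans ha) haℓ hℓ hs hB).trans (by norm_num)
  · intro b hb hbS x hx d q hd hq hdq p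
    have hgood : DioW R η (a + b * η) η := by
      by_contra h
      exact hbS (Finset.mem_filter.2 ⟨Finset.mem_range.2 hb, h⟩)
    have hdq0 : 0 ≤ (d : ℝ) + Real.log q := by
      have : 0 ≤ Real.log q := Real.log_nonneg (by exact_mod_cast hq)
      positivity
    by_cases hcase : ((d : ℝ) + Real.log q) ^ 3 ≤ c₀ * n
    · refine hDio x ?_ d q hd hq hcase p
      have hb' : ((b + 1 : ℕ) : ℝ) ≤ B := by exact_mod_cast hb
      have h2 : 0 ≤ (b : ℝ) * η := by positivity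
      have h3 : ((b + 1 : ℕ) : ℝ) * η ≤ B * η := mul_le_mul_of_nonneg_right hb' hη0.le
      have h4 : (B : ℝ) * η = ℓ := by rw [hη, mul_div_cancel₀ _ hB0.ne']
      push_cast at h3
      exact ⟨by linarith [hx.1], by linarith [hx.2]⟩
    · push Not at hcase
      have h2 : (d : ℝ) + Real.log q ≤ ρ := by
        refine le_of_pow_le_pow_left₀ (n := 3) (by norm_num) hρ0 ?_
        rw [hρ3]
        have h3 : (m : ℝ) ≤ 2 * n := by exact_mod_cast hm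
        calc ((d : ℝ) + Real.log q) ^ 3 ≤ c₀ * m := hdq
          _ ≤ c₀ * (2 * n) := mul_le_mul_of_nonneg_left h3 hc₀.le
          _ = 2 * c₀ * n := by ring
      obtain ⟨hdR, hqR⟩ := le_R (by linarith : 0 < ρ) hd hq h2
      refine le_trans ?_ ((hexp.trans (hgood d q hd hdR hq hqR p x hx)))
      rw [Real.exp_le_exp, neg_le_neg_iff]
      exact mul_le_mul_of_nonneg_left hcase.le hC0.le

end Pool.Agent.Helper27.LD2
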